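import Pool.Agent.Run7.h172.Npp.Stm

/-!
# NPP, piece SM: sharpness for sets of positive measure (helper803)
-/

set_option autoImplicit false
set_option linter.all false

namespace Pool.Agent.Run7.h803.Npp.SM

open Finset Polynomial MeasureTheory Filter Topology
open Pool.Agent.H807R2.Dav (ee)
open Pool.Agent.Helper44K9.FU (W Mul1 Rel dil)
open Pool.Agent.Run7.h172.Npp

/-! ## measure part -/

lemma vol_win (E : Set UnitAddCircle) (hE : MeasurableSet E) (t : ℝ) :
    volume ({u : ℝ | (u : UnitAddCircle) ∈ E} ∩ Set.Ioc t (t + 1)) = volume E := by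
  have h := (UnitAddCircle.measurePreserving_mk t).measure_preimage hE.nullMeasurableSet
  rw [Measure.restrict_apply] at h
  · exact h
  · exact (UnitAddCircle.measurePreserving_mk t).measurable hE

lemma meas_pre (E : Set UnitAddCircle) (hE : MeasurableSet E) :
    MeasurableSet {u : ℝ | (u : UnitAddCircle) ∈ E} :=
  (UnitAddCircle.measurePreserving_mk 0).measurable hE

lemma vol_long (E : Set UnitAddCircle) (hE : MeasurableSet E) (t : ℝ) (k : ℕ) :
    (k : ENNReal) * volume E ≤ volume ({u : ℝ | (u : UnitAddCircle) ∈ E} ∩ Set.Ioc t (t + k)) := by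
  induction k with
  | zero => simp
  | succ k ih =>
    have hsub : ({u : ℝ | (u : UnitAddCircle) ∈ E} ∩ Set.Ioc t (t + k)) ∪
        ({u : ℝ | (u : UnitAddCircle) ∈ E} ∩ Set.Ioc (t + k) (t + k + 1)) ⊆
        {u : ℝ | (u : UnitAddCircle) ∈ E} ∩ Set.Ioc t (t + (k + 1 : ℕ)) := by
      rintro u (⟨h1, h2⟩ | ⟨h1, h2⟩)
      · refine ⟨h1, h2.1, ?_⟩
        push_cast
        linarith [h2.2]
      · refine ⟨h1, ?_, ?_⟩
        · have : (0 : ℝ) ≤ k := by positivity
          linarith [h2.1]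
        · push_cast
          linarith [h2.2]
    refine le_trans ?_ (measure_mono hsub)
    rw [measure_union]
    · rw [vol_win E hE]
      push_cast
      rw [add_mul, one_mul]
      gcongr
    · rw [Set.disjoint_left]
      rintro u ⟨-, h2⟩ ⟨-, h3⟩
      linarith [h2.2, h3.1]
    · exact (meas_pre E hE).inter measurableSet_Ioc

lemma vol_one (E : Set UnitAddCircle) (hE : MeasurableSet E) (l : ℝ) (hl : 1 ≤ l) :
    ENNReal.ofReal (1 / 2) * volume E ≤
      volume ({τ : ℝ | ((τ * l : ℝ) : UnitAddCircle) ∈ E} ∩ Set.Ioc 1 2) := by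
  have hl0 : l ≠ 0 := by linarith
  have hpos : 0 < l := by linarith
  set k := ⌊l⌋₊ with hk
  have hk1 : 1 ≤ k := Nat.le_floor (by simpa using hl)
  have hk2 : (k : ℝ) ≤ l := Nat.floor_le hpos.le
  have hk3 : l < k + 1 := Nat.lt_floor_add_one l
  have hset : {τ : ℝ | ((τ * l : ℝ) : UnitAddCircle) ∈ E} ∩ Set.Ioc 1 2 =
      (· * l) ⁻¹' ({u : ℝ | (u : UnitAddCircle) ∈ E} ∩ Set.Ioc l (l + l)) := by
    ext τ
    simp only [Set.mem_inter_iff, Set.mem_setOf_eq, Set.mem_Ioc, Set.mem_preimage]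
    constructor
    · rintro ⟨h1, h2, h3⟩
      exact ⟨h1, by nlinarith, by nlinarith⟩
    · rintro ⟨h1, h2, h3⟩
      refine ⟨h1, ?_, ?_⟩
      · by_contra h
        push Not at h
        nlinarith
      · by_contra h
        push Not at h
        nlinarith
  rw [hset, Real.volume_preimage_mul_right hl0]
  have h1 := vol_long E hE l k
  have h2 : volume ({u : ℝ | (u : UnitAddCircle) ∈ E} ∩ Set.Ioc l (l + k)) ≤
      volume ({u : ℝ | (u : UnitAddCircle) ∈ E} ∩ Set.Ioc l (l + l)) := by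
    apply measure_mono
    rintro u ⟨h3, h4, h5⟩
    exact ⟨h3, h4, by linarith⟩
  calc ENNReal.ofReal (1 / 2) * volume E
      ≤ ENNReal.ofReal |l⁻¹| * (k * volume E) := by
        rw [← mul_assoc]
        gcongr
        rw [← ENNReal.ofReal_natCast, ← ENNReal.ofReal_mul (abs_nonneg _)]
        apply ENNReal.ofReal_le_ofReal
        rw [abs_of_pos (inv_pos.2 hpos), inv_mul_eq_div, div_le_div_iff₀ (by norm_num) hpos]
        have : (1 : ℝ) ≤ k := by exact_mod_cast hk1
        linarith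
    _ ≤ _ := by gcongr; exact h1.trans h2

/-- change of sign -/
lemma exists_sign (d : ℕ) (E : Set UnitAddCircle) (hE : MeasurableSet E) :
    ∃ E' : Set UnitAddCircle, MeasurableSet E' ∧ volume E' = volume E ∧
      ∀ u : ℝ, (u : UnitAddCircle) ∈ E' ↔ (((-1) ^ d * u : ℝ) : UnitAddCircle) ∈ E := by
  rcases Nat.even_or_odd d with h | h
  · refine ⟨E, hE, rfl, fun u => ?_⟩
    rw [h.neg_one_pow, one_mul]
  · refine ⟨Neg.neg ⁻¹' E, hE.preimage measurable_neg, ?_, fun u => ?_⟩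
    · exact Measure.measure_preimage_neg volume E
    · rw [h.neg_one_pow, neg_one_mul]
      rfl

/-- the averaging argument -/
lemma average (E : Set UnitAddCircle) (hE : MeasurableSet E) (S : Finset ℕ) (l : ℕ → ℝ)
    (hl : ∀ n ∈ S, 1 ≤ l n) (c : ℝ)
    (hc : ∀ τ ∈ Set.Ioc (1 : ℝ) 2, ∀ G ⊆ S, (∀ n ∈ G, ((τ * l n : ℝ) : UnitAddCircle) ∈ E) → (G.card : ℝ) ≤ c) :
    (S.card : ENNReal) * (ENNReal.ofReal (1 / 2) * volume E) ≤ ENNReal.ofReal c := by
  classical
  have h1 : ∫⁻ τ in Set.Ioc (1 : ℝ) 2,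
      ∑ n ∈ S, ({τ : ℝ | ((τ * l n : ℝ) : UnitAddCircle) ∈ E}).indicator (fun _ => (1 : ENNReal)) τ ≤
      ENNReal.ofReal c := by
    calc ∫⁻ τ in Set.Ioc (1 : ℝ) 2,
      ∑ n ∈ S, ({τ : ℝ | ((τ * l n : ℝ) : UnitAddCircle) ∈ E}).indicator (fun _ => (1 : ENNReal)) τ
        ≤ ∫⁻ τ in Set.Ioc (1 : ℝ) 2, ENNReal.ofReal c := by
          apply setLIntegral_mono measurable_const
          intro τ hτ
          have h2 := hc τ hτ (S.filter fun n => ((τ * l n : ℝ) : UnitAddCircle) ∈ E)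
            (Finset.filter_subset _ _) (fun n hn => (Finset.mem_filter.1 hn).2)
          have h3 : ∑ n ∈ S, ({τ : ℝ | ((τ * l n : ℝ) : UnitAddCircle) ∈ E}).indicator
              (fun _ => (1 : ENNReal)) τ =
              ((S.filter fun n => ((τ * l n : ℝ) : UnitAddCircle) ∈ E).card : ENNReal) := by
            rw [Finset.card_filter]
            push_cast
            refine Finset.sum_congr rfl fun n _ => ?_
            by_cases h4 : ((τ * l n : ℝ) : UnitAddCircle) ∈ E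
            · rw [if_pos h4, Set.indicator_of_mem]
              exact h4
            · rw [if_neg h4, Set.indicator_of_notMem]
              exact h4
          rw [h3, ← ENNReal.ofReal_natCast]
          exact ENNReal.ofReal_le_ofReal h2
      _ = ENNReal.ofReal c := by
          rw [setLIntegral_const, Real.volume_Ioc]
          norm_num
  refine le_trans ?_ h1
  have hm : ∀ n, MeasurableSet {τ : ℝ | ((τ * l n : ℝ) : UnitAddCircle) ∈ E} := fun n =>
    (meas_pre E hE).preimage (measurable_id.mul_const (l n))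
  rw [lintegral_finsetSum]
  · rw [Finset.card_eq_sum_ones]
    push_cast
    rw [Finset.sum_mul]
    apply Finset.sum_le_sum
    intro n hn
    rw [lintegral_indicator (hm n), setLIntegral_const, one_mul, one_mul, Measure.restrict_apply (hm n)]
    exact vol_one E hE (l n) (hl n hn)
  · intro n _
    exact measurable_const.indicator (hm n)

/-! ## the functions and the phases -/

/-- `n^{iT}`, `T = 2 π c` -/
noncomputable def fc (c : ℝ) (n : ℕ) : ℂ := if n = 0 then 0 else ee (c * Real.log n)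

lemma norm_ee (x : ℝ) : ‖ee x‖ = 1 := by
  unfold ee
  rw [show 2 * (Real.pi : ℂ) * Complex.I * (x : ℂ) = ((2 * Real.pi * x : ℝ) : ℂ) * Complex.I by
    push_cast; ring]
  exact Complex.norm_exp_ofReal_mul_I _

lemma ee_add (x y : ℝ) : ee (x + y) = ee x * ee y := by
  unfold ee
  rw [← Complex.exp_add]
  congr 1
  push_cast
  ring

lemma re_ee (x : ℝ) : (ee x).re = Real.cos (2 * Real.pi * x) := by
  unfold ee
  rw [show 2 * (Real.pi : ℂ) * Complex.I * (x : ℂ) = ((2 * Real.pi * x : ℝ) : ℂ) * Complex.I by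
    push_cast; ring]
  exact Complex.exp_ofReal_mul_I_re _

lemma re_ee_ge {x : ℝ} (hx : |x| ≤ 1 / 7) : 1 / 2 ≤ (ee x).re := by
  rw [re_ee]
  have h1 := Real.one_sub_sq_div_two_le_cos (x := 2 * Real.pi * x)
  have h2 : |2 * Real.pi * x| ≤ 1 := by
    rw [abs_mul, abs_of_pos (by positivity)]
    have := Real.pi_lt_d2
    nlinarith [abs_nonneg x, Real.pi_pos]
  have h3 : (2 * Real.pi * x) ^ 2 ≤ 1 := by
    rw [← sq_abs]
    have := abs_nonneg (2 * Real.pi * x)
    nlinarith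
  linarith

lemma mul1_fc (c : ℝ) : Mul1 (fc c) := by
  constructor
  · intro n
    unfold fc
    split_ifs
    · simp
    · rw [norm_ee]
  · intro a b _
    unfold fc
    by_cases ha : a = 0
    · simp [ha]
    · by_cases hb : b = 0
      · simp [hb]
      · rw [if_neg (mul_ne_zero ha hb), if_neg ha, if_neg hb, ← ee_add, Nat.cast_mul,
          Real.log_mul (by exact_mod_cast ha) (by exact_mod_cast hb)]
        congr 1
        ring

/-- the Taylor polynomial -/
noncomputable def TP (c : ℝ) (d n : ℕ) : ℝ[X] :=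
  C (-c) * (C (Real.log n) - ∑ i ∈ Finset.range d, C ((-1 / (n : ℝ)) ^ (i + 1) / ((i : ℝ) + 1)) *
    (X - C (n : ℝ)) ^ (i + 1))

lemma TP_deg (c : ℝ) (d n : ℕ) : (TP c d n).natDegree ≤ d := by
  unfold TP
  refine (natDegree_C_mul_le _ _).trans ?_
  refine (natDegree_sub_le_of_le (m := d) (n := d) ?_ ?_).trans (by simp)
  · rw [natDegree_C]; exact Nat.zero_le _
  · apply natDegree_sum_le_of_forall_le
    intro i hi
    refine (natDegree_C_mul_le _ _).trans ?_
    rw [natDegree_pow, natDegree_X_sub_C, mul_one]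
    rw [Finset.mem_range] at hi
    omega

lemma TP_coeff (c : ℝ) {d : ℕ} (hd : 1 ≤ d) (n : ℕ) :
    (TP c d n).coeff d = c * ((-1 / (n : ℝ)) ^ d / d) := by
  unfold TP
  rw [coeff_C_mul, coeff_sub, coeff_C, if_neg (by omega), finset_sum_coeff]
  rw [Finset.sum_eq_single (d - 1)]
  · have hd1 : d - 1 + 1 = d := by omega
    rw [hd1, coeff_C_mul]
    have h1 : ((X - C (n : ℝ)) ^ d).coeff d = 1 := by
      have h2 := ((monic_X_sub_C (n : ℝ)).pow d).coeff_natDegree
      rwa [natDegree_pow, natDegree_X_sub_C, mul_one] at h2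
    rw [h1]
    have h3 : ((d - 1 : ℕ) : ℝ) + 1 = d := by
      rw [Nat.cast_sub hd]; ring
    rw [h3]
    ring
  · intro i hi hne
    rw [Finset.mem_range] at hi
    rw [coeff_C_mul, coeff_eq_zero_of_natDegree_lt, mul_zero]
    rw [natDegree_pow, natDegree_X_sub_C, mul_one]
    omega
  · intro h
    exact absurd (Finset.mem_range.2 (by omega)) h

lemma TP_eval (c : ℝ) (d : ℕ) {n : ℕ} (hn : 1 ≤ n) (h : ℕ) :
    c * Real.log ((n + h : ℕ) : ℝ) + (TP c d n).eval ((n + h : ℕ) : ℝ) =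
      c * ((∑ i ∈ Finset.range d, (-(h : ℝ) / n) ^ (i + 1) / ((i : ℝ) + 1)) +
        Real.log (1 - (-(h : ℝ) / n))) := by
  have hn0 : (n : ℝ) ≠ 0 := by exact_mod_cast (by omega : n ≠ 0)
  have hnp : (0 : ℝ) < n := by exact_mod_cast hn
  unfold TP
  rw [eval_mul, eval_C, eval_sub, eval_C, eval_finset_sum]
  have h1 : Real.log (1 - (-(h : ℝ) / n)) = Real.log ((n + h : ℕ) : ℝ) - Real.log n := by
    rw [← Real.log_div (by positivity) hn0]
    congr 1
    push_cast
    field_simp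
    ring
  have h2 : ∑ i ∈ Finset.range d, eval (((n + h : ℕ) : ℝ)) (C ((-1 / (n : ℝ)) ^ (i + 1) / ((i : ℝ) + 1)) *
      (X - C (n : ℝ)) ^ (i + 1)) = ∑ i ∈ Finset.range d, (-(h : ℝ) / n) ^ (i + 1) / ((i : ℝ) + 1) := by
    refine Finset.sum_congr rfl fun i _ => ?_
    rw [eval_mul, eval_C, eval_pow, eval_sub, eval_X, eval_C]
    have h3 : ((n + h : ℕ) : ℝ) - n = h := by push_cast; ring
    rw [h3, div_mul_eq_mul_div, ← mul_pow]
    congr 2
    ring
  rw [h1, h2]
  ring

/-- the window sum is large -/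
lemma W_large {d M H : ℕ} (hd : 1 ≤ d) (hH : 1 ≤ H) (hM : 28 * d * (2 * H) ^ (d + 1) ≤ 2 * M) {τ : ℝ}
    (hτ : τ ∈ Set.Ioc (1 : ℝ) 2) {n : ℕ} (hn1 : M ≤ n) :
    (H : ℝ) / 2 ≤ ‖W (fc (d * τ * ((2 * M : ℕ) : ℝ) ^ d)) (TP (d * τ * ((2 * M : ℕ) : ℝ) ^ d) d n) n H‖ := by
  set c : ℝ := d * τ * ((2 * M : ℕ) : ℝ) ^ d with hc
  have hHH : 2 * H ≤ (2 * H) ^ (d + 1) := Nat.le_self_pow (by omega) _
  have hMH : 14 * (2 * H) ≤ M := by
    have h1 : 28 * 1 * (2 * H) ≤ 28 * d * (2 * H) ^ (d + 1) := by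
      apply Nat.mul_le_mul _ hHH
      omega
    omega
  have hn : 1 ≤ n := by omega
  have hnp : (0 : ℝ) < n := by exact_mod_cast hn
  have hMp : (0 : ℝ) < M := by exact_mod_cast (by omega : 0 < M)
  have hMn : (M : ℝ) ≤ n := by exact_mod_cast hn1
  have hterm : ∀ m ∈ Ioc n (n + H), 1 / 2 ≤ (fc c m * ee ((TP c d n).eval (m : ℝ))).re := by
    intro m hm
    rw [Finset.mem_Ioc] at hm
    obtain ⟨h, rfl⟩ : ∃ h, m = n + h := ⟨m - n, by omega⟩
    have hh1 : 1 ≤ h := by omega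
    have hh2 : h ≤ H := by omega
    unfold fc
    rw [if_neg (by omega), ← ee_add, TP_eval c d hn h]
    apply re_ee_ge
    have hx : |(-(h : ℝ) / n)| ≤ (H : ℝ) / M := by
      rw [abs_div, abs_neg, abs_of_nonneg (by positivity : (0 : ℝ) ≤ h), abs_of_pos hnp]
      apply div_le_div₀ (by positivity) (by exact_mod_cast hh2) hMp hMn
    have hHM : (H : ℝ) / M ≤ 1 / 2 := by
      rw [div_le_div_iff₀ hMp (by norm_num)]
      have : (14 * (2 * H) : ℝ) ≤ M := by exact_mod_cast hMH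
      have h0 : (0 : ℝ) ≤ H := by positivity
      linarith
    have hx1 : |(-(h : ℝ) / n)| < 1 := by linarith
    have hT := Real.abs_log_sub_add_sum_range_le hx1 d
    have hT2 : |(-(h : ℝ) / n)| ^ (d + 1) / (1 - |(-(h : ℝ) / n)|) ≤ 2 * ((H : ℝ) / M) ^ (d + 1) := by
      rw [div_le_iff₀ (by linarith)]
      have h5 : |(-(h : ℝ) / n)| ^ (d + 1) ≤ ((H : ℝ) / M) ^ (d + 1) := by gcongr
      have h6 : (0 : ℝ) ≤ ((H : ℝ) / M) ^ (d + 1) := by positivity
      nlinarith
    have hc0 : 0 ≤ c := by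
      have : 0 < τ := by linarith [hτ.1]
      rw [hc]; positivity
    rw [abs_mul, abs_of_nonneg hc0]
    have hc2 : c ≤ d * 2 * ((2 * M : ℕ) : ℝ) ^ d := by
      rw [hc]
      have := hτ.2
      gcongr
    calc c * |(∑ i ∈ Finset.range d, (-(h : ℝ) / n) ^ (i + 1) / ((i : ℝ) + 1)) + Real.log (1 - (-(h : ℝ) / n))|
        ≤ (d * 2 * ((2 * M : ℕ) : ℝ) ^ d) * (2 * ((H : ℝ) / M) ^ (d + 1)) := by
          apply mul_le_mul hc2 (hT.trans hT2) (abs_nonneg _) (by positivity)
      _ = 2 * d * (2 * H) ^ (d + 1) / M := by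
          push_cast
          rw [div_pow, mul_pow, mul_pow]
          field_simp
          ring
      _ ≤ 1 / 7 := by
          rw [div_le_div_iff₀ hMp (by norm_num)]
          have : (28 * d * (2 * H) ^ (d + 1) : ℝ) ≤ 2 * M := by exact_mod_cast hM
          linarith
  have hre : (H : ℝ) / 2 ≤ (W (fc c) (TP c d n) n H).re := by
    unfold W
    rw [Complex.re_sum]
    calc (H : ℝ) / 2 = ∑ m ∈ Ioc n (n + H), (1 / 2 : ℝ) := by
          rw [Finset.sum_const, Nat.card_Ioc, nsmul_eq_mul]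
          have : n + H - n = H := by omega
          rw [this]; ring
      _ ≤ _ := Finset.sum_le_sum hterm
  exact hre.trans (Complex.re_le_norm _)

lemma W_le {f : ℕ → ℂ} (hf : ∀ n, ‖f n‖ ≤ 1) (P : ℝ[X]) (n H : ℕ) : ‖W f P n H‖ ≤ H := by
  unfold W
  refine (norm_sum_le _ _).trans ?_
  calc ∑ m ∈ Ioc n (n + H), ‖f m * ee (P.eval (m : ℝ))‖ ≤ ∑ m ∈ Ioc n (n + H), (1 : ℝ) := by
        apply Finset.sum_le_sum
        intro m _
        rw [norm_mul, norm_ee, mul_one]
        exact hf m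
    _ = H := by simp

lemma nSup_ge {d : ℕ} {E : Set UnitAddCircle} {f : ℕ → ℂ} (hf : ∀ n, ‖f n‖ ≤ 1) (n H : ℕ) {P : ℝ[X]}
    (hP : P.natDegree ≤ d ∧ ((P.coeff d : ℝ) : UnitAddCircle) ∈ E) : ‖W f P n H‖ ≤ nSup d E f n H := by
  unfold nSup
  exact le_ciSup (f := fun P : {P : ℝ[X] // P.natDegree ≤ d ∧ ((P.coeff d : ℝ) : UnitAddCircle) ∈ E} =>
    ‖W f P.1 n H‖) ⟨H, by rintro _ ⟨Q, rfl⟩; exact W_le hf _ _ _⟩ ⟨P, hP⟩

lemma nSup_nonneg (d : ℕ) (E : Set UnitAddCircle) (f : ℕ → ℂ) (n H : ℕ) : 0 ≤ nSup d E f n H :=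
  Real.iSup_nonneg fun _ => norm_nonneg _

/-- **Sharpness for sets of positive measure.** -/
theorem sm : S_SM := by
  intro d hd E hE hE0 hG
  obtain ⟨E', hE'm, hE'v, hE's⟩ := exists_sign d E hE
  have hfin : volume E ≠ ⊤ := (measure_lt_top _ _).ne
  set μ : ℝ := (volume E).toReal with hμ
  have hμpos : 0 < μ := ENNReal.toReal_pos hE0 hfin
  obtain ⟨H₀, hH₀⟩ := hG (μ / 16) (by positivity)
  set H := max H₀ 1 with hH
  have hH1 : 1 ≤ H := le_max_right _ _
  set M := 14 * d * (2 * H) ^ (d + 1) with hM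
  have hM2 : 28 * d * (2 * H) ^ (d + 1) ≤ 2 * M := by rw [hM]; ring_nf; exact le_refl _
  have hHH : 2 * H ≤ (2 * H) ^ (d + 1) := Nat.le_self_pow (by omega) _
  have hMH : H ≤ M := by
    have h1 : 14 * 1 * (2 * H) ≤ 14 * d * (2 * H) ^ (d + 1) := by
      apply Nat.mul_le_mul _ hHH
      omega
    omega
  have hM1 : 1 ≤ M := by omega
  have hHp : (0 : ℝ) < H := by exact_mod_cast hH1
  have key := average E' hE'm (Finset.Icc M (2 * M)) (fun n => (((2 * M : ℕ) : ℝ) / n) ^ d) (by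
    intro n hn
    rw [Finset.mem_Icc] at hn
    apply one_le_pow₀
    rw [le_div_iff₀ (by exact_mod_cast (by omega : 0 < n)), one_mul]
    exact_mod_cast hn.2) (μ / 4 * M) (by
    intro τ hτ G hGS hGE
    set c : ℝ := d * τ * ((2 * M : ℕ) : ℝ) ^ d with hc
    have h1 := hH₀ (fc c) (mul1_fc c) (2 * M) H (le_max_left _ _) (by omega)
    have h2 : ∑ n ∈ G, (H : ℝ) / 2 ≤ ∑ n ∈ Icc 1 (2 * M), nSup d E (fc c) n H := by
      refine le_trans (Finset.sum_le_sum ?_) (Finset.sum_le_sum_of_subset_of_nonneg ?_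
        fun n _ _ => nSup_nonneg d E (fc c) n H)
      · intro n hn
        have hn2 := Finset.mem_Icc.1 (hGS hn)
        refine (W_large hd hH1 hM2 hτ hn2.1).trans (nSup_ge (mul1_fc c).1 n H ⟨TP_deg _ _ _, ?_⟩)
        rw [TP_coeff _ hd]
        have h3 := (hE's _).1 (hGE n hn)
        have hn0 : (n : ℝ) ≠ 0 := by exact_mod_cast (by omega : n ≠ 0)
        have hd0 : (d : ℝ) ≠ 0 := by exact_mod_cast (by omega : d ≠ 0)
        have h4 : c * ((-1 / (n : ℝ)) ^ d / d) = (-1) ^ d * (τ * (((2 * M : ℕ) : ℝ) / n) ^ d) := by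
          rw [hc, div_pow, div_pow]
          field_simp
        rw [h4]
        exact h3
      · intro n hn
        have hn2 := Finset.mem_Icc.1 (hGS hn)
        exact Finset.mem_Icc.2 ⟨by omega, hn2.2⟩
    rw [Finset.sum_const, nsmul_eq_mul] at h2
    have h5 := h2.trans h1
    have h6 : (G.card : ℝ) * (H / 2) ≤ (μ / 4 * M) * (H / 2) := by
      refine h5.trans (le_of_eq ?_)
      push_cast
      ring
    exact le_of_mul_le_mul_right h6 (by positivity))
  rw [Nat.card_Icc, hE'v] at key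
  have h7 : volume E = ENNReal.ofReal μ := (ENNReal.ofReal_toReal hfin).symm
  rw [h7, ← ENNReal.ofReal_natCast, ← ENNReal.ofReal_mul (by norm_num), ← ENNReal.ofReal_mul (by positivity),
    ENNReal.ofReal_le_ofReal_iff (by positivity)] at key
  have h8 : ((2 * M + 1 - M : ℕ) : ℝ) = M + 1 := by
    have : 2 * M + 1 - M = M + 1 := by omega
    rw [this]; push_cast; ring
  rw [h8] at key
  have hMp : (0 : ℝ) < M := by exact_mod_cast hM1
  nlinarith

end Pool.Agent.Run7.h803.Npp.SM
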